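import Pool.Agent.L5helper98.CG.Defs

set_option autoImplicit false

open MeasureTheory ProbabilityTheory Filter Topology Set WithLp
open scoped ENNReal RealInnerProductSpace

namespace Pool.Agent.L5helper33.CG

open Pool.Agent.L5helper98.CG

/-- The selection of coordinates. -/
noncomputable def sel {n k : ℕ} (f : Fin k → Fin n) :
    EuclideanSpace ℝ (Fin n) →L[ℝ] EuclideanSpace ℝ (Fin k) :=
  ((PiLp.continuousLinearEquiv 2 ℝ (fun _ : Fin k => ℝ)).symm :
      (Fin k → ℝ) →L[ℝ] EuclideanSpace ℝ (Fin k)) ∘L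
    (ContinuousLinearMap.pi fun i => (EuclideanSpace.proj (f i) :
      EuclideanSpace ℝ (Fin n) →L[ℝ] ℝ))

theorem sel_apply {n k : ℕ} (f : Fin k → Fin n) (x : EuclideanSpace ℝ (Fin n)) (i : Fin k) :
    sel f x i = x (f i) := by
  simp [sel]

theorem map_sel {n k : ℕ} {C : Matrix (Fin n) (Fin n) ℝ} (hC : C.PosSemidef) (f : Fin k → Fin n) :
    (multivariateGaussian 0 C).map (sel f) = multivariateGaussian 0 (C.submatrix f f) := by
  apply IsGaussian.ext
  · simp only [id_eq, integral_id_multivariateGaussian]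
    rw [ContinuousLinearMap.integral_id_map, integral_id_multivariateGaussian, map_zero]
    exact IsGaussian.integrable_id
  rw [← ContinuousLinearMap.toBilinForm_inj]
  refine LinearMap.BilinForm.ext_basis (EuclideanSpace.basisFun (Fin k) ℝ).toBasis fun i j ↦ ?_
  rw [ContinuousLinearMap.toBilinForm_apply, ContinuousLinearMap.toBilinForm_apply,
    covarianceBilin_apply_eq_cov, covariance_map]
  · have (i : Fin k) : (fun u ↦ ⟪(EuclideanSpace.basisFun (Fin k) ℝ).toBasis i, u⟫) ∘
        (sel f) = fun u ↦ u (f i) := by ext; simp [PiLp.inner_apply, sel_apply]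
    simp_rw [this, covariance_eval_multivariateGaussian hC,
      covarianceBilin_multivariateGaussian (hC.submatrix _)]
    simp
  any_goals exact Measurable.aestronglyMeasurable (by fun_prop)
  · fun_prop
  · exact IsGaussian.memLp_two_id

theorem indep_sel {n k l : ℕ} {C : Matrix (Fin n) (Fin n) ℝ} (hC : C.PosSemidef)
    (f : Fin k → Fin n) (g : Fin l → Fin n) (h : ∀ i j, C (f i) (g j) = 0) :
    IndepFun (fun (x : EuclideanSpace ℝ (Fin n)) i => x (f i))
      (fun (x : EuclideanSpace ℝ (Fin n)) j => x (g j)) (multivariateGaussian 0 C) := by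
  have h1 : HasGaussianLaw (id : EuclideanSpace ℝ (Fin n) → _) (multivariateGaussian 0 C) :=
    IsGaussian.hasGaussianLaw_id
  have h2 := h1.map (((ContinuousLinearMap.pi fun i => (EuclideanSpace.proj (f i) :
      EuclideanSpace ℝ (Fin n) →L[ℝ] ℝ))).prod (ContinuousLinearMap.pi fun j =>
      (EuclideanSpace.proj (g j) : EuclideanSpace ℝ (Fin n) →L[ℝ] ℝ)))
  refine HasGaussianLaw.indepFun_of_covariance_eval
    (X := fun i (x : EuclideanSpace ℝ (Fin n)) => x (f i))
    (Y := fun j (x : EuclideanSpace ℝ (Fin n)) => x (g j)) ?_ ?_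
  · exact h2
  · intro i j
    rw [covariance_eval_multivariateGaussian hC]
    exact h i j

theorem IND_holds : St_IND := by
  intro n k l C hC f g _ _ h F G hF hG
  have hind := (indep_sel hC f g h).comp hF hG
  have hmf : Measurable (fun x : EuclideanSpace ℝ (Fin n) => (fun i => x (f i) : Fin k → ℝ)) := by
    fun_prop
  have hmg : Measurable (fun x : EuclideanSpace ℝ (Fin n) => (fun i => x (g i) : Fin l → ℝ)) := by
    fun_prop
  have e := lintegral_mul_eq_lintegral_mul_lintegral_of_indepFun (hF.comp hmf) (hG.comp hmg) hind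
  have ef : ∫⁻ x, F (fun i => x i) ∂(multivariateGaussian 0 (C.submatrix f f)) =
      ∫⁻ x, F (fun i => x (f i)) ∂(multivariateGaussian 0 C) := by
    rw [← map_sel hC f, lintegral_map (by fun_prop) (by fun_prop)]
    simp only [sel_apply]
  have eg : ∫⁻ x, G (fun i => x i) ∂(multivariateGaussian 0 (C.submatrix g g)) =
      ∫⁻ x, G (fun i => x (g i)) ∂(multivariateGaussian 0 C) := by
    rw [← map_sel hC g, lintegral_map (by fun_prop) (by fun_prop)]
    simp only [sel_apply]
  rw [ef, eg]
  exact e

end Pool.Agent.L5helper33.CG
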